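import Pool.Agent.L7h99.SC.Fin
import Pool.Agent.L7h47.LS.Wrap

set_option autoImplicit false

open MeasureTheory

namespace Pool.Agent.Results.MP_cfe56d_mp.AsymptoticallySemiclassical

/-- The partial derivative `∂_k φ` of a function on `ℝ^d`. -/
noncomputable def pder {d : ℕ} (k : Fin d) (φ : (Fin d → ℝ) → ℝ) (x : Fin d → ℝ) : ℝ :=
  fderiv ℝ φ x (Pi.single k 1)

/-- `u` belongs to the Sobolev space `H¹(ℝ^d; ℂ)` and has the weak partial derivatives `g k`: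
`u` and all `g k` are in `L²(ℝ^d)`, and `∫ u ∂_k φ = - ∫ g_k φ` for every real test function
`φ ∈ C_c^∞(ℝ^d)`. -/
structure IsSobolev {d : ℕ} (u : (Fin d → ℝ) → ℂ) (g : Fin d → (Fin d → ℝ) → ℂ) : Prop where
  memLp : MemLp u 2 volume
  memLp_deriv : ∀ k, MemLp (g k) 2 volume
  weak : ∀ k (φ : (Fin d → ℝ) → ℝ), ContDiff ℝ (⊤ : ℕ∞) φ → HasCompactSupport φ →
    ∫ x, u x * (pder k φ x : ℂ) = - ∫ x, g k x * (φ x : ℂ)

/-- The constants `K` admissible in the kinetic energy inequality in dimension `d`: for all `N`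
and all `L²`-orthonormal `u_1, …, u_N ∈ H¹(ℝ^d; ℂ)` the function `ρ ^ (1 + 2 / d)`,
`ρ = ∑ |u_n|²`, is integrable and `K ∫ ρ ^ (1 + 2 / d) ≤ ∑ ∫ |∇ u_n|²`. -/
def AdmissibleSystem (d : ℕ) (K : ℝ) : Prop :=
  ∀ (N : ℕ) (u : Fin N → (Fin d → ℝ) → ℂ) (g : Fin N → Fin d → (Fin d → ℝ) → ℂ),
    (∀ n, IsSobolev (u n) (g n)) →
    (∀ n m, ∫ x, (starRingEnd ℂ) (u n x) * u m x = if n = m then 1 else 0) →
    Integrable (fun x => (∑ n, ‖u n x‖ ^ 2) ^ (1 + 2 / (d : ℝ))) ∧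
    K * ∫ x, (∑ n, ‖u n x‖ ^ 2) ^ (1 + 2 / (d : ℝ)) ≤ ∑ n, ∑ k, ∫ x, ‖g n k x‖ ^ 2

/-- The semiclassical constant `d / (d + 2) * (2π)² / ω_d ^ (2 / d)`. -/
noncomputable def Kcl (d : ℕ) : ℝ :=
  d / (d + 2) * ((2 * Real.pi) ^ 2 /
    (volume (Metric.ball (0 : EuclideanSpace ℝ (Fin d)) 1)).toReal ^ ((2 : ℝ) / d))

/-- There is `C > 0` such that in every dimension `d` with `d ^ (1 / 19) > C` the kinetic energy
inequality for orthonormal systems holds with the constant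
`(1 - C d ^ (-1 / 19)) ^ (1 / d) K_d^cl`. -/
theorem result : ∃ C : ℝ, 0 < C ∧ ∀ d : ℕ, C < (d : ℝ) ^ ((1 : ℝ) / 19) →
    AdmissibleSystem d ((1 - C / (d : ℝ) ^ ((1 : ℝ) / 19)) ^ (1 / (d : ℝ)) * Kcl d) := by
  obtain ⟨C, hC, H⟩ := Pool.Agent.L7h99.SC.t_rate
  refine ⟨C, hC, fun d hd N u g hS ho => ?_⟩
  have hd1 : 1 ≤ d := by
    by_contra h0
    have h1 : d = 0 := by omega
    rw [h1, Nat.cast_zero, Real.zero_rpow (by norm_num)] at hd
    linarith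
  have hd0 : (0 : ℝ) < d := by exact_mod_cast hd1
  have hp : 0 < (d : ℝ) ^ ((1 : ℝ) / 19) := Real.rpow_pos_of_pos hd0 _
  have e : C * (d : ℝ) ^ (-(1 / 19) : ℝ) = C / (d : ℝ) ^ ((1 : ℝ) / 19) := by
    rw [Real.rpow_neg hd0.le, ← div_eq_mul_inv]
  have hlt : C / (d : ℝ) ^ ((1 : ℝ) / 19) < 1 := (div_lt_one hp).2 hd
  have hcore := H d hd1 (by rw [e]; exact hlt.le) N
  rw [e] at hcore
  have hK : 0 < (1 - C / (d : ℝ) ^ ((1 : ℝ) / 19)) ^ (1 / (d : ℝ)) * Kcl d := by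
    have h1 : 0 < Kcl d := by
      have h2 : 0 < (volume (Metric.ball (0 : EuclideanSpace ℝ (Fin d)) 1)).toReal :=
        ENNReal.toReal_pos (Metric.measure_ball_pos volume _ one_pos).ne'
          measure_ball_lt_top.ne
      have := Real.pi_pos
      unfold Kcl
      positivity
    have h3 : 0 < 1 - C / (d : ℝ) ^ ((1 : ℝ) / 19) := by linarith
    positivity
  exact Pool.Agent.L7h47.LS.t_WRAP d _ N hd1 hK hcore N u g le_rfl
    (fun n => ⟨(hS n).1, (hS n).2, (hS n).3⟩) ho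

end Pool.Agent.Results.MP_cfe56d_mp.AsymptoticallySemiclassical
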