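import Pool.Agent.L7h99.LS.Main
import Pool.Agent.L7h47.LS.Wrap

set_option autoImplicit false

open MeasureTheory

namespace Pool.Agent.Results.MP_cfe56d_mp.FewFunctionsHighDimension

/-- The partial derivative `∂_k φ` of a function on `ℝ^d`. -/
noncomputable def pder {d : ℕ} (k : Fin d) (φ : (Fin d → ℝ) → ℝ) (x : Fin d → ℝ) : ℝ :=
  fderiv ℝ φ x (Pi.single k 1)

/-- `u` belongs to the Sobolev space `H¹(ℝ^d; ℂ)` and has the weak partial derivatives `g k`: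
`u` and all `g k` are in `L²(ℝ^d)`, and `∫ u ∂_k φ = - ∫ g_k φ` for every real test function
`φ ∈ C_c^∞(ℝ^d)`. -/
structure IsSobolev {d : ℕ} (u : (Fin d → ℝ) → ℂ) (g : Fin d → (Fin d → ℝ) → ℂ) : Prop where
  memLp : MemLp u 2 volume
  memLp_deriv : ∀ k, MemLp (g k) 2 volume
  weak : ∀ k (φ : (Fin d → ℝ) → ℝ), ContDiff ℝ (⊤ : ℕ∞) φ → HasCompactSupport φ →
    ∫ x, u x * (pder k φ x : ℂ) = - ∫ x, g k x * (φ x : ℂ)

/-- The semiclassical constant `d / (d + 2) * (2π)² / ω_d ^ (2 / d)`. -/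
noncomputable def Kcl (d : ℕ) : ℝ :=
  d / (d + 2) * ((2 * Real.pi) ^ 2 /
    (volume (Metric.ball (0 : EuclideanSpace ℝ (Fin d)) 1)).toReal ^ ((2 : ℝ) / d))

/-- There are `c > 0` and `d₀` such that in every dimension `d ≥ d₀` the kinetic energy inequality
holds with the semiclassical constant, and even with the larger constant
`(1 + c N^(-2/d)) K_d^cl`, for all `L²`-orthonormal systems of `N ≤ (c d / log d) ^ (d / 2)`
functions in `H¹(ℝ^d; ℂ)`. -/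
theorem result : ∃ c : ℝ, 0 < c ∧ ∃ d₀ : ℕ, 2 ≤ d₀ ∧ ∀ (d N : ℕ), d₀ ≤ d → 1 ≤ N →
    (N : ℝ) ≤ (c * d / Real.log d) ^ ((d : ℝ) / 2) →
    ∀ (u : Fin N → (Fin d → ℝ) → ℂ) (g : Fin N → Fin d → (Fin d → ℝ) → ℂ),
      (∀ n, IsSobolev (u n) (g n)) →
      (∀ n m, ∫ x, (starRingEnd ℂ) (u n x) * u m x = if n = m then 1 else 0) →
      Integrable (fun x => (∑ n, ‖u n x‖ ^ 2) ^ (1 + 2 / (d : ℝ))) ∧
      (1 + c * (N : ℝ) ^ (-(2 / (d : ℝ)))) * Kcl d *
        ∫ x, (∑ n, ‖u n x‖ ^ 2) ^ (1 + 2 / (d : ℝ)) ≤ ∑ n, ∑ k, ∫ x, ‖g n k x‖ ^ 2 := by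
  obtain ⟨c, hc, d₀, hd₀, H⟩ := Pool.Agent.L7h99.LS.core_all
  refine ⟨c, hc, d₀, by omega, fun d N hd hN1 hN u g hS ho => ?_⟩
  have hN1' : (1 : ℝ) ≤ N := by exact_mod_cast hN1
  have hcore := H d hd N hN1' hN
  have hK : 0 < (1 + c * (N : ℝ) ^ (-(2 / (d : ℝ)))) * Kcl d := by
    have h1 : 0 < Kcl d := by
      have hd1 : 0 < d := by omega
      have : (0 : ℝ) < d := by exact_mod_cast hd1
      have h2 : 0 < (volume (Metric.ball (0 : EuclideanSpace ℝ (Fin d)) 1)).toReal :=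
        ENNReal.toReal_pos (Metric.measure_ball_pos volume _ one_pos).ne'
          measure_ball_lt_top.ne
      have := Real.pi_pos
      unfold Kcl
      positivity
    positivity
  exact Pool.Agent.L7h47.LS.t_WRAP d _ N (by omega) hK hcore N u g le_rfl
    (fun n => ⟨(hS n).1, (hS n).2, (hS n).3⟩) ho

end Pool.Agent.Results.MP_cfe56d_mp.FewFunctionsHighDimension
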