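import Pool.Agent.L7h99.GF.Fin
import Pool.Agent.L7h22.GF.Low3
import Pool.Agent.L7h99.GF.Wrf

set_option autoImplicit false

/-!
Project GF: helper99 (statements, trace bound, assembly), with helper65 (path kernels, removal of
the regularisation), helper22 (small time lower bound, windows) and helper23 (window assembly).
-/

open MeasureTheory

namespace Pool.Agent.Results.MP_cfe56d_mp.GradientTerm

/-- The partial derivative `∂_k φ` of a function on `ℝ^d`. -/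
noncomputable def pder {d : ℕ} (k : Fin d) (φ : (Fin d → ℝ) → ℝ) (x : Fin d → ℝ) : ℝ :=
  fderiv ℝ φ x (Pi.single k 1)

/-- `u` belongs to the Sobolev space `H¹(ℝ^d; ℂ)` and has the weak partial derivatives `g k`:
`u` and all `g k` are in `L²(ℝ^d)`, and `∫ u ∂_k φ = - ∫ g_k φ` for every real test function
`φ ∈ C_c^∞(ℝ^d)`. -/
structure IsSobolev {d : ℕ} (u : (Fin d → ℝ) → ℂ) (g : Fin d → (Fin d → ℝ) → ℂ) : Prop where
  memLp : MemLp u 2 volume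
  memLp_deriv : ∀ k, MemLp (g k) 2 volume
  weak : ∀ k (φ : (Fin d → ℝ) → ℝ), ContDiff ℝ (⊤ : ℕ∞) φ → HasCompactSupport φ →
    ∫ x, u x * (pder k φ x : ℂ) = - ∫ x, g k x * (φ x : ℂ)

/-- The semiclassical constant `d / (d + 2) * (2π)² / ω_d ^ (2 / d)`. -/
noncomputable def Kcl (d : ℕ) : ℝ :=
  d / (d + 2) * ((2 * Real.pi) ^ 2 /
    (volume (Metric.ball (0 : EuclideanSpace ℝ (Fin d)) 1)).toReal ^ ((2 : ℝ) / d))

/-- The density `ρ = ∑ |u_n|²`. -/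
noncomputable def density {d N : ℕ} (u : Fin N → (Fin d → ℝ) → ℂ) (x : Fin d → ℝ) : ℝ :=
  ∑ n, ‖u n x‖ ^ 2

/-- `|∇√ρ|²` for the density `ρ = ∑ |u_n|²` (zero where `ρ = 0`): since
`∂_k ρ = 2 Re ∑ conj(u_n) ∂_k u_n`, one has `|∂_k √ρ|² = (Re ∑ conj(u_n) ∂_k u_n)² / ρ`. -/
noncomputable def gradSqrtSq {d N : ℕ} (u : Fin N → (Fin d → ℝ) → ℂ)
    (g : Fin N → Fin d → (Fin d → ℝ) → ℂ) (x : Fin d → ℝ) : ℝ :=
  ∑ k, (∑ n, ((starRingEnd ℂ) (u n x) * g n k x).re) ^ 2 / density u x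

/-- For every `κ < 1/4` there are `C` and `d₀` such that in every dimension `d ≥ d₀` all
`L²`-orthonormal systems `u_1, …, u_N ∈ H¹(ℝ^d; ℂ)` satisfy
`(1 - C log d / d) K_d^cl ∫ ρ^(1+2/d) + κ ∫ |∇√ρ|² ≤ ∑ ∫ |∇ u_n|²`;
in particular the conjectured inequality `K_d^cl ∫ ρ^(1+2/d) ≤ ∑ ∫ |∇ u_n|²` holds for all systems
with `∫ |∇√ρ|² ≥ (C / κ) (log d / d) K_d^cl ∫ ρ^(1+2/d)`. -/
theorem result : ∀ κ : ℝ, 0 < κ → κ < 1 / 4 → ∃ (C : ℝ) (d₀ : ℕ), 0 < C ∧ 2 ≤ d₀ ∧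
    ∀ (d N : ℕ), d₀ ≤ d →
    ∀ (u : Fin N → (Fin d → ℝ) → ℂ) (g : Fin N → Fin d → (Fin d → ℝ) → ℂ),
      (∀ n, IsSobolev (u n) (g n)) →
      (∀ n m, ∫ x, (starRingEnd ℂ) (u n x) * u m x = if n = m then 1 else 0) →
      Integrable (fun x => density u x ^ (1 + 2 / (d : ℝ))) ∧
      Integrable (gradSqrtSq u g) ∧
      (1 - C * (Real.log d / d)) * Kcl d * (∫ x, density u x ^ (1 + 2 / (d : ℝ))) +
        κ * (∫ x, gradSqrtSq u g x) ≤ ∑ n, ∑ k, ∫ x, ‖g n k x‖ ^ 2 ∧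
      (C / κ * (Real.log d / d) * (Kcl d * ∫ x, density u x ^ (1 + 2 / (d : ℝ))) ≤
          ∫ x, gradSqrtSq u g x →
        Kcl d * (∫ x, density u x ^ (1 + 2 / (d : ℝ))) ≤ ∑ n, ∑ k, ∫ x, ‖g n k x‖ ^ 2) := by
  intro κ hκ0 hκ
  obtain ⟨C, d₀, hC, hd₀, H⟩ := Pool.Agent.L7h99.GF.sys_grad Pool.Agent.L7h22.GF.t_LOW3
    Pool.Agent.L7h99.GF.t_WRF κ hκ0 hκ
  refine ⟨C, d₀, hC, by omega, fun d N hd u g hS ho => ?_⟩
  have h := (H d hd).2 N u g (fun n => ⟨(hS n).1, (hS n).2, (hS n).3⟩) ho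
  refine ⟨h.1, h.2.1, h.2.2, fun hx => ?_⟩
  have h3 := h.2.2
  have h4 := mul_le_mul_of_nonneg_left hx hκ0.le
  have e1 : κ * (C / κ * (Real.log d / d) * (Kcl d * ∫ x, density u x ^ (1 + 2 / (d : ℝ)))) =
      C * (Real.log d / d) * (Kcl d * ∫ x, density u x ^ (1 + 2 / (d : ℝ))) := by
    field_simp
  rw [e1] at h4
  have e2 : LTd.Kcl d = Kcl d := rfl
  rw [e2] at h3
  have e3 : (∫ x, (∑ i, ‖u i x‖ ^ 2) ^ (1 + 2 / (d : ℝ))) =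
    ∫ x, density u x ^ (1 + 2 / (d : ℝ)) := rfl
  have e4 : (∫ x, ∑ k, (∑ i, ((starRingEnd ℂ) (u i x) * g i k x).re) ^ 2 /
    ∑ i, ‖u i x‖ ^ 2) = ∫ x, gradSqrtSq u g x := rfl
  rw [e3, e4] at h3
  linarith

end Pool.Agent.Results.MP_cfe56d_mp.GradientTerm
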