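import Pool.Agent.L7h98.RA.Avg
import Pool.Agent.L7h98.RA.LTW
import Pool.Agent.L7h98.RA.SUB
import Pool.Agent.L7h76.RA.Pol
import Pool.Agent.L7h76.RA.EnerB
import Pool.Agent.L7h76.RA.Dens
import Pool.Agent.L7h73.RA.Bas

/-!
# The Lieb-Thirring kinetic inequality with the semiclassical constant for the rotation averages
of the densities of all orthonormal systems

Let `d ≥ 6` and let `x` consist of `a ≥ 6` of the `d = a + k` coordinates, `y` of the others. For
every orthonormal system `u_1, …, u_N ∈ H¹(ℝ^d; ℂ)`, let `w(|x|, y)` be the average of its density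
`ρ = ∑ |u_n|²` over the rotations of `x`. Then `K_cl ∫ w ^ (1 + 2/d) ≤ ∑ ∫ |∇ u_n|²`. In particular
the conjectured inequality `K_cl ∫ ρ ^ (1 + 2/d) ≤ ∑ ∫ |∇ u_n|²` holds for all systems whose density
is invariant under the rotations of six of the coordinates (of all coordinates, when `k = 0`). The
functions themselves need no symmetry. By duality this is the Lieb-Thirring inequality for the sum
of the negative eigenvalues, with the semiclassical constant, for all potentials `V(|x|, y)`.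

Proof.
(1) By duality it is enough to bound `∑ (∫ V |u_n|² - ∫ |∇ u_n|²)` for bounded `V(|x|, y) ≥ 0`, and
by density (cut-off near `x = 0`, mollification, Weierstrass in `C¹`, decomposition of polynomials
into spherical harmonics) for the real functions `u_n = ∑ G_{n,α}(|x|², y) Y_α(x)`, where the `Y_α`
are finitely many spherical harmonics of degrees `l(α)`, at most `h_l` of them of the degree `l`,
`h_l` the dimension of the space of the spherical harmonics of degree `l`.
(2) In the variable `t = log |x|` the energy becomes the sum over `α` of the energies of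
`-∂_t² + ν² + e^(2t) (-Δ_y - V)`, `ν = l(α) + (a-2)/2`, with the norm `∫ e^(2t) |φ|²`. For every `α`
the components of the `u_n` have a Gram matrix at most one.
(3) Let `S(λ)` be the sum of the absolute values of the negative eigenvalues of the operator with
`ν²` replaced by `λ`. It is a supremum of affine functions of `λ`, and the cells of
`AllClosedShells` (here `a ≥ 6` is used) give
`∑ h_l S(ν_l²) ≤ 2/(a-1)! ∫ S(λ) d(λ^((a-1)/2))`.
(4) The right hand side is the integral over `τ > 0` of the sum of the powers `(a-1)/2` of the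
negative eigenvalues of `-∂_t² + e^(2t) (-Δ_y - V + τ)`. For these operators the Lieb-Thirring
inequality with the semiclassical constant and with the right hand side
`∫ e^(at) (V - τ)_+^(d/2)` is proved by induction over the dimension, as in the theorem of Laptev
and Weidl: the matrix valued inequality in the variable `t` followed by the inequality in the
variables `y`, in which the weight `e^(2t)` is a constant. The constants multiply to the
semiclassical one.

Authors: helper98 (proof, statements, steps (3), (4), assembly), helper76 (polar coordinates, the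
divergence theorem on the sphere, energies, cut-off, Weierstrass theorem, density), helper73
(spherical harmonics: orthonormal bases, decomposition of polynomials, multiplicities). It uses the
libraries of the starting files `AllDimensions` (matrix valued inequality in one variable) and
`AllClosedShells` (cells, inertia).
-/

set_option autoImplicit false

open MeasureTheory Set

namespace Pool.Agent.Results.MP_cfe56d_mp.RotationAverages

/-- The partial derivative `∂_k φ` of a function on `ℝ^d`. -/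
noncomputable def pder {d : ℕ} (k : Fin d) (φ : (Fin d → ℝ) → ℝ) (x : Fin d → ℝ) : ℝ :=
  fderiv ℝ φ x (Pi.single k 1)

/-- `u` belongs to the Sobolev space `H¹(ℝ^d; ℂ)` and has the weak partial derivatives `g k`:
`u` and all `g k` are in `L²(ℝ^d)`, and `∫ u ∂_k φ = - ∫ g_k φ` for every real test function
`φ ∈ C_c^∞(ℝ^d)`. -/
structure IsSobolev {d : ℕ} (u : (Fin d → ℝ) → ℂ) (g : Fin d → (Fin d → ℝ) → ℂ) : Prop where
  memLp : MemLp u 2 volume
  memLp_deriv : ∀ k, MemLp (g k) 2 volume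
  weak : ∀ k (φ : (Fin d → ℝ) → ℝ), ContDiff ℝ (⊤ : ℕ∞) φ → HasCompactSupport φ →
    ∫ x, u x * (pder k φ x : ℂ) = - ∫ x, g k x * (φ x : ℂ)

/-- The semiclassical constant `d / (d + 2) * (2π)² / ω_d ^ (2 / d)`. -/
noncomputable def Kcl (d : ℕ) : ℝ :=
  d / (d + 2) * ((2 * Real.pi) ^ 2 /
    (volume (Metric.ball (0 : EuclideanSpace ℝ (Fin d)) 1)).toReal ^ ((2 : ℝ) / d))

/-- `(x, y) ↦ (|x|, y)`, where `x` consists of the first `a` coordinates and `y` of the other `k`. -/
noncomputable def pol {a k : ℕ} (z : Fin (a + k) → ℝ) : ℝ × (Fin k → ℝ) :=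
  (√(∑ i : Fin a, z (Fin.castAdd k i) ^ 2), fun j => z (Fin.natAdd a j))

/-- `w (|x|, y)` is the average of `ρ (x, y)` over the rotations of `x`: it is nonnegative and
measurable, and has the same integral as `ρ` over every set `{(|x|, y) ∈ B}`, `B` measurable. -/
def IsRotationAverage {a k : ℕ} (ρ : (Fin (a + k) → ℝ) → ℝ) (w : ℝ × (Fin k → ℝ) → ℝ) : Prop :=
  Measurable w ∧ (∀ p, 0 ≤ w p) ∧ ∀ B : Set (ℝ × (Fin k → ℝ)), MeasurableSet B →
    ∫⁻ z in pol ⁻¹' B, ENNReal.ofReal (ρ z) = ∫⁻ z in (pol : (Fin (a + k) → ℝ) → _) ⁻¹' B,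
      ENNReal.ofReal (w (pol z))

open Pool.Agent.L7h98.RA

theorem dualH : S_DUALH := by
  have h1 : Pool.Agent.N537.RS.S_MEAS :=
    Pool.Agent.N537.RS.ME.t_MEAS Pool.Agent.N537.RS.IN.t_INERT
  have h2 : Pool.Agent.N537.RS.S_INT :=
    Pool.Agent.N537.RS.IT.t_INT Pool.Agent.N537.RS.IN.t_INERT
  have hcore : S_CORE := t_CORE (t_LTW t_WT) (t_SUB h2) t_GSW t_TAUW h1
    Pool.Agent.N537.RS.CE.t_CELL
  have hA : S_DUALA := t_DUALA hcore Pool.Agent.L7h73.RA.s_MULT Pool.Agent.L7h76.RA.s_ENER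
    Pool.Agent.L7h76.RA.s_POL0
  exact t_DUALH (t_DUALC Pool.Agent.L7h76.RA.s_ENER
    (Pool.Agent.L7h76.RA.s_DENS Pool.Agent.L7h73.RA.s_BAS) hA)

theorem meas_pol {a k : ℕ} : Measurable (pol : (Fin (a + k) → ℝ) → ℝ × (Fin k → ℝ)) := by
  apply Continuous.measurable
  unfold pol
  fun_prop

/-- from `(|x|², y)` to `(|x|, y)` -/
theorem toPol {a k : ℕ} {ρ : (Fin (a + k) → ℝ) → ℝ} {w : (Fin (k + 1) → ℝ) → ℝ}
    (h : IsRotAvg ρ w) :
    IsRotationAverage ρ (fun p => w (Fin.cons (p.1 ^ 2) p.2 : Fin (k + 1) → ℝ)) := by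
  obtain ⟨h1, h2, h3⟩ := h
  have hc : ∀ z : Fin (a + k) → ℝ, (Fin.cons ((pol z).1 ^ 2) (pol z).2 : Fin (k + 1) → ℝ) =
      QQ z := by
    intro z
    unfold pol QQ
    simp only
    rw [Real.sq_sqrt (Finset.sum_nonneg fun i _ => sq_nonneg _)]
  have hm : Measurable fun p : ℝ × (Fin k → ℝ) => (Fin.cons (p.1 ^ 2) p.2 : Fin (k + 1) → ℝ) := by
    apply Continuous.measurable
    refine continuous_pi fun i => ?_
    refine Fin.cases ?_ (fun j => ?_) i
    · simp only [Fin.cons_zero]
      fun_prop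
    · simp only [Fin.cons_succ]
      fun_prop
  refine ⟨h1.comp hm, fun p => h2 _, fun B hB => ?_⟩
  obtain ⟨B', hB'⟩ : ∃ B' : Set (Fin (k + 1) → ℝ), B' = {s | (√(s 0), fun j => s j.succ) ∈ B} :=
    ⟨_, rfl⟩
  have hm' : Measurable fun s : Fin (k + 1) → ℝ => ((√(s 0), fun j => s j.succ) : ℝ × (Fin k → ℝ)) := by
    apply Continuous.measurable
    fun_prop
  have hBm : MeasurableSet B' := by
    rw [hB']
    exact hm' hB
  have hpre : (pol : (Fin (a + k) → ℝ) → _) ⁻¹' B = QQ ⁻¹' B' := by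
    rw [hB']
    rfl
  rw [hpre, h3 B' hBm]
  simp only [hc]

/-- from `(|x|, y)` to `(|x|², y)` -/
theorem ofPol {a k : ℕ} {ρ : (Fin (a + k) → ℝ) → ℝ} {w : ℝ × (Fin k → ℝ) → ℝ}
    (h : IsRotationAverage ρ w) :
    IsRotAvg ρ (fun s => w (√(s 0), fun j => s j.succ)) := by
  obtain ⟨h1, h2, h3⟩ := h
  have hm' : Measurable fun s : Fin (k + 1) → ℝ => ((√(s 0), fun j => s j.succ) : ℝ × (Fin k → ℝ)) := by
    apply Continuous.measurable
    fun_prop
  refine ⟨h1.comp hm', fun s => h2 _, fun B hB => ?_⟩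
  obtain ⟨B', hB'⟩ : ∃ B' : Set (ℝ × (Fin k → ℝ)),
      B' = {p | (Fin.cons (p.1 ^ 2) p.2 : Fin (k + 1) → ℝ) ∈ B} := ⟨_, rfl⟩
  have hm : Measurable fun p : ℝ × (Fin k → ℝ) => (Fin.cons (p.1 ^ 2) p.2 : Fin (k + 1) → ℝ) := by
    apply Continuous.measurable
    refine continuous_pi fun i => ?_
    refine Fin.cases ?_ (fun j => ?_) i
    · simp only [Fin.cons_zero]
      fun_prop
    · simp only [Fin.cons_succ]
      fun_prop
  have hBm : MeasurableSet B' := by
    rw [hB']
    exact hm hB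
  have hc : ∀ z : Fin (a + k) → ℝ, (Fin.cons ((pol z).1 ^ 2) (pol z).2 : Fin (k + 1) → ℝ) =
      QQ z := by
    intro z
    unfold pol QQ
    simp only
    rw [Real.sq_sqrt (Finset.sum_nonneg fun i _ => sq_nonneg _)]
  have hpre : (QQ : (Fin (a + k) → ℝ) → _) ⁻¹' B = pol ⁻¹' B' := by
    ext z
    rw [hB', mem_preimage, mem_preimage, mem_setOf_eq, hc]
  rw [hpre, h3 B' hBm]
  rfl

/-- **The Lieb-Thirring kinetic inequality with the semiclassical constant, for all orthonormal
systems, after averaging the density over the rotations of `a ≥ 6` of the coordinates.** Here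
`d = a + k`, and `u_1, …, u_N` is an arbitrary orthonormal system in `H¹(ℝ^d; ℂ)` with weak
gradients `g_n`. (1) The rotation average of the density `ρ = ∑ |u_n|²` exists. (2) If `w(|x|, y)` is
the rotation average, then `w ^ (1 + 2/d)` is integrable over `ℝ^d` and
`K_cl ∫ w ^ (1 + 2/d) ≤ ∑ ∫ |∇ u_n|²`. (3) In particular, if the density itself is a function of
`(|x|, y)`, then `K_cl ∫ ρ ^ (1 + 2/d) ≤ ∑ ∫ |∇ u_n|²`. -/
theorem result (a k : ℕ) (ha : 6 ≤ a) (N : ℕ) (u : Fin N → (Fin (a + k) → ℝ) → ℂ)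
    (g : Fin N → Fin (a + k) → (Fin (a + k) → ℝ) → ℂ) (hu : ∀ n, IsSobolev (u n) (g n))
    (ho : ∀ n m, ∫ z, (starRingEnd ℂ) (u n z) * u m z = if n = m then 1 else 0) :
    (∃ w, IsRotationAverage (fun z => ∑ n, ‖u n z‖ ^ 2) w) ∧
    (∀ w, IsRotationAverage (fun z => ∑ n, ‖u n z‖ ^ 2) w →
      Integrable (fun z : Fin (a + k) → ℝ => w (pol z) ^ (1 + 2 / ((a + k : ℕ) : ℝ))) ∧
      Kcl (a + k) * ∫ z : Fin (a + k) → ℝ, w (pol z) ^ (1 + 2 / ((a + k : ℕ) : ℝ)) ≤
        ∑ n, ∑ j, ∫ z, ‖g n j z‖ ^ 2) ∧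
    ∀ w : ℝ × (Fin k → ℝ) → ℝ, Measurable w → (∀ᵐ z, ∑ n, ‖u n z‖ ^ 2 = w (pol z)) →
      Integrable (fun z => (∑ n, ‖u n z‖ ^ 2) ^ (1 + 2 / ((a + k : ℕ) : ℝ))) ∧
      Kcl (a + k) * ∫ z, (∑ n, ‖u n z‖ ^ 2) ^ (1 + 2 / ((a + k : ℕ) : ℝ)) ≤
        ∑ n, ∑ j, ∫ z, ‖g n j z‖ ^ 2 := by
  have hu' : ∀ n, LTd.WGradC (u n) (g n) := fun n => ⟨(hu n).1, (hu n).2, (hu n).3⟩
  have main : ∀ w, IsRotationAverage (fun z => ∑ n, ‖u n z‖ ^ 2) w →
      Integrable (fun z : Fin (a + k) → ℝ => w (pol z) ^ (1 + 2 / ((a + k : ℕ) : ℝ))) ∧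
      Kcl (a + k) * ∫ z : Fin (a + k) → ℝ, w (pol z) ^ (1 + 2 / ((a + k : ℕ) : ℝ)) ≤
        ∑ n, ∑ j, ∫ z, ‖g n j z‖ ^ 2 := by
    intro w hw
    exact kinetic dualH t_CSTW a k ha N u g hu' ho _ (ofPol hw)
  refine ⟨?_, main, ?_⟩
  · have hint : Integrable (fun z => ∑ n, ‖u n z‖ ^ 2) :=
      integrable_finsetSum _ fun n _ => (hu n).memLp.integrable_norm_pow two_ne_zero
    have h2 := hint.2
    rw [hasFiniteIntegral_iff_ofReal (Filter.Eventually.of_forall fun z =>
      Finset.sum_nonneg fun n _ => by positivity)] at h2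
    obtain ⟨w, hw⟩ := exists_avg h2
    exact ⟨_, toPol hw⟩
  · intro w hw hae
    have hae' : ∀ᵐ z, ∑ n, ‖u n z‖ ^ 2 = max (w (pol z)) 0 := by
      filter_upwards [hae] with z hz
      rw [← hz, max_eq_left (Finset.sum_nonneg fun n _ => by positivity)]
    have h1 := main (fun p => max (w p) 0) ⟨hw.max measurable_const, fun p => le_max_right _ _,
      fun B _ => by
        apply lintegral_congr_ae
        filter_upwards [ae_restrict_of_ae hae'] with z hz
        rw [hz]⟩
    have h2 : (fun z => (∑ n, ‖u n z‖ ^ 2) ^ (1 + 2 / ((a + k : ℕ) : ℝ))) =ᵐ[volume]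
        fun z => (max (w (pol z)) 0) ^ (1 + 2 / ((a + k : ℕ) : ℝ)) := by
      filter_upwards [hae'] with z hz
      rw [hz]
    refine ⟨h1.1.congr h2.symm, ?_⟩
    rw [integral_congr_ae h2]
    exact h1.2

end Pool.Agent.Results.MP_cfe56d_mp.RotationAverages
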